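import Pool.Agent.R756.WP.Top
import Pool.Agent.R756.WP.Flat
import Pool.Agent.H238R2.LR.Pack

/-!
# Families whose sections at blocks have bounded Vapnik-Chervonenkis dimension
-/

set_option autoImplicit false

namespace Pool.Agent.J4.H83.PH

open Finset Pool.Agent.Y613.PJ Pool.Agent.H238R2.LR

section core

variable {b : ℕ} {C R : Type} [Fintype C] [Fintype R] [DecidableEq C] [DecidableEq R]

/-- `v` contents of the block `k` are shattered, with the rest `ρ` -/
def Shat (P : Conf b C R → Prop) (v : ℕ) (ρ : R → Bool) (k : Fin b) : Prop :=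
  ∃ u : Fin v → C → Bool, ∀ T : Finset (Fin v), ∃ y : Conf b C R, out y = ρ ∧
    ∀ i, (P (put y k (u i)) ↔ i ∈ T)

/-- columns -/
def cols (ρ : R → Bool) (k : Fin b) : Finset (Conf b C R) :=
  univ.filter fun y => out y = ρ ∧ cont y k = fun _ => false

lemma mem_cols {ρ : R → Bool} {k : Fin b} {y : Conf b C R} :
    y ∈ cols ρ k ↔ out y = ρ ∧ cont y k = fun _ => false := by
  simp [cols]

/-- rows -/
def row (F : Finset (Conf b C R)) (ρ : R → Bool) (k : Fin b) (u : C → Bool) :
    Finset (Conf b C R) := (cols ρ k).filter fun y => put y k u ∈ F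

lemma rowVC {F : Finset (Conf b C R)} {v : ℕ} {ρ : R → Bool} {k : Fin b}
    (h : ¬ Shat (fun z => z ∈ F) v ρ k) :
    RowVC (fun (u : C → Bool) (y : Conf b C R) => decide (put y k u ∈ F)) univ (cols ρ k)
      (2 ^ v) := by
  classical
  intro S hS hsh
  by_contra hlt
  push Not at hlt
  apply h
  have hcard : Fintype.card (Finset (Fin v)) ≤ Fintype.card S := by
    rw [Fintype.card_finset, Fintype.card_fin, Fintype.card_coe]
    exact hlt.le
  obtain ⟨e⟩ := Function.Embedding.nonempty_of_card_le hcard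
  have hT : ∀ i : Fin v, ((univ.filter fun T : Finset (Fin v) => i ∈ T).image
      fun T => ((e T : S) : Conf b C R)) ⊆ S := by
    intro i y hy
    obtain ⟨T, -, rfl⟩ := mem_image.1 hy
    exact (e T).2
  choose u hu using fun i => hsh _ (hT i)
  refine ⟨u, fun T => ⟨(e T : S), (mem_cols.1 (hS (e T).2)).1, fun i => ?_⟩⟩
  have h1 := (hu i).2 (e T : S) (e T).2
  rw [decide_eq_true_iff] at h1
  refine h1.trans ?_
  rw [mem_image]
  constructor
  · rintro ⟨T', hT', h2⟩
    have : T' = T := e.injective (Subtype.ext h2)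
    rw [← this]
    exact (mem_filter.1 hT').2
  · intro h2
    exact ⟨T, mem_filter.2 ⟨mem_univ _, h2⟩, rfl⟩

/-- a pair of contents with nearly the same row -/
lemma near_pair {F : Finset (Conf b C R)} {ρ : R → Bool} {k : Fin b} {D E a : ℕ}
    (hVC : RowVC (fun (u : C → Bool) (y : Conf b C R) => decide (put y k u ∈ F)) univ (cols ρ k) D)
    (hne : (cols ρ k : Finset (Conf b C R)).Nonempty)
    (hE : 2 ≤ E) (ha : (2 * a * E + 1) ^ D < 2 ^ a)
    (Q : Set ((C → Bool) × (C → Bool)))
    (hQ : ∀ χ : (C → Bool) → Fin (2 ^ a), ∃ p ∈ Q, χ p.1 = χ p.2) :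
    ∃ p ∈ Q, E * #((cols ρ k).filter fun y : Conf b C R =>
      decide (put y k p.1 ∈ F) ≠ decide (put y k p.2 ∈ F)) ≤ 2 * #(cols (C := C) ρ k) := by
  classical
  set f : (C → Bool) → Conf b C R → Bool := fun u y => decide (put y k u ∈ F) with hf
  set B : Finset (Conf b C R) := cols ρ k with hB
  let sep : Finset (C → Bool) → Prop := fun P => ∀ x ∈ P, ∀ x' ∈ P, x ≠ x' →
    #B < E * #(B.filter fun y => f x y ≠ f x' y)
  obtain ⟨P, hP, hmax⟩ := exists_max_image ((univ : Finset (Finset (C → Bool))).filter sep) card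
    ⟨∅, by simp [sep]⟩
  have hPsep : sep P := (mem_filter.1 hP).2
  have hPc : #P < 2 ^ a := pack f univ P B D E a hne hE (subset_univ _) hPsep hVC ha
  have hnear : ∀ u, ∃ p ∈ P, E * #(B.filter fun y => f u y ≠ f p y) ≤ #B := by
    intro u
    by_contra hcon
    push Not at hcon
    have huP : u ∉ P := by
      intro hu
      have := hcon u hu
      simp at this
    have h1 : sep (insert u P) := by
      intro x hx x' hx' hne
      rw [mem_insert] at hx hx'
      rcases hx with rfl | hx <;> rcases hx' with rfl | hx'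
      · exact absurd rfl hne
      · exact hcon _ hx'
      · have := hcon _ hx
        have e : (B.filter fun y => f x y ≠ f x' y) = B.filter fun y => f x' y ≠ f x y :=
          filter_congr fun y _ => ne_comm
        rw [e]
        exact this
      · exact hPsep x hx x' hx' hne
    have h2 := hmax (insert u P) (mem_filter.2 ⟨mem_univ _, h1⟩)
    rw [card_insert_of_notMem huP] at h2
    omega
  choose p hpP hp using hnear
  have hcard : Fintype.card P ≤ Fintype.card (Fin (2 ^ a)) := by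
    rw [Fintype.card_coe, Fintype.card_fin]
    exact hPc.le
  obtain ⟨e⟩ := Function.Embedding.nonempty_of_card_le hcard
  obtain ⟨⟨u, u'⟩, hmem, heq⟩ := hQ fun u => e ⟨p u, hpP u⟩
  refine ⟨(u, u'), hmem, ?_⟩
  have hpp : p u = p u' := by
    have := e.injective heq
    exact congrArg Subtype.val this
  have hsub : (B.filter fun y => f u y ≠ f u' y) ⊆
      (B.filter fun y => f u y ≠ f (p u) y) ∪ (B.filter fun y => f u' y ≠ f (p u') y) := by
    intro y hy
    rw [mem_filter] at hy
    rw [mem_union, mem_filter, mem_filter, ← hpp]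
    by_cases h1 : f u y = f (p u) y
    · right
      exact ⟨hy.1, fun h2 => hy.2 (h1.trans h2.symm)⟩
    · left
      exact ⟨hy.1, h1⟩
  have h1 := (card_le_card hsub).trans (card_union_le _ _)
  have h2 := hp u
  have h3 := hp u'
  calc E * #(B.filter fun y => f u y ≠ f u' y)
      ≤ E * (#(B.filter fun y => f u y ≠ f (p u) y) + #(B.filter fun y => f u' y ≠ f (p u') y)) :=
        Nat.mul_le_mul_left _ h1
    _ ≤ 2 * #B := by rw [mul_add]; omega

lemma card_cols (ρ : R → Bool) (k : Fin b) :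
    #(cols (C := C) ρ k) = (2 ^ Fintype.card C) ^ (b - 1) := by
  classical
  have h1 : (cols ρ k : Finset (Conf b C R)) = (({ρ} : Finset (R → Bool)) ×ˢ
      Fintype.piFinset (fun j : Fin b => if j = k then {fun _ => false} else
        (univ : Finset (C → Bool)))).map split.symm.toEmbedding := by
    ext z
    rw [mem_cols, mem_map]
    constructor
    · rintro ⟨h1, h2⟩
      refine ⟨split z, ?_, ?_⟩
      · rw [mem_product, mem_singleton, Fintype.mem_piFinset]
        refine ⟨h1, fun j => ?_⟩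
        split_ifs with hj
        · subst hj
          rw [mem_singleton]
          exact h2
        · exact mem_univ _
      · exact split.symm_apply_apply z
    · rintro ⟨p, hp, rfl⟩
      rw [mem_product, mem_singleton, Fintype.mem_piFinset] at hp
      have e1 : split (split.symm p : Conf b C R) = p := split.apply_symm_apply p
      have e2 : out (split.symm p : Conf b C R) = p.1 := congrArg Prod.fst e1
      have e3 : cont (split.symm p : Conf b C R) = p.2 := congrArg Prod.snd e1
      refine ⟨e2.trans hp.1, ?_⟩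
      have h4 := hp.2 k
      rw [if_pos rfl, mem_singleton] at h4
      exact (congrFun e3 k).trans h4
  rw [h1, card_map, card_product, card_singleton, one_mul, Fintype.card_piFinset]
  rw [← Finset.mul_prod_erase univ _ (mem_univ k), if_pos rfl, card_singleton, one_mul]
  rw [Finset.prod_congr rfl (g := fun _ => 2 ^ Fintype.card C)]
  · rw [prod_const, card_erase_of_mem (mem_univ _), card_univ, Fintype.card_fin]
  · intro j hj
    rw [if_neg (ne_of_mem_erase hj), card_univ, Fintype.card_fun, Fintype.card_bool]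

lemma card_row (F : Finset (Conf b C R)) (ρ : R → Bool) (k : Fin b) (u : C → Bool) :
    #(F.filter fun z => out z = ρ ∧ cont z k = u) = #(row F ρ k u) := by
  classical
  refine card_bij' (fun z _ => put z k fun _ => false) (fun y _ => put y k u) ?_ ?_ ?_ ?_
  · intro z hz
    rw [mem_filter] at hz
    rw [row, mem_filter, mem_cols]
    refine ⟨⟨(out_put _ _ _).trans hz.2.1, cont_put _ _ _⟩, ?_⟩
    have h1 := put_put z k fun _ => false
    rw [hz.2.2] at h1
    rw [h1]
    exact hz.1
  · intro y hy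
    rw [row, mem_filter, mem_cols] at hy
    rw [mem_filter]
    exact ⟨hy.2, (out_put _ _ _).trans hy.1.1, cont_put _ _ _⟩
  · intro z hz
    rw [mem_filter] at hz
    have h1 := put_put z k fun _ => false
    rw [hz.2.2] at h1
    exact h1
  · intro y hy
    rw [row, mem_filter, mem_cols] at hy
    have h1 := put_put y k u
    rw [hy.1.2] at h1
    exact h1

lemma sum_hits (a : (R → Bool) → Fin b → C → Bool) (F : Finset (Conf b C R)) :
    ∑ z ∈ F, hits a z = ∑ ρ : R → Bool, ∑ k, #(row F ρ k (a ρ k)) := by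
  classical
  have h1 : ∀ z : Conf b C R, hits a z = ∑ ρ : R → Bool, ∑ k,
      if out z = ρ ∧ cont z k = a ρ k then 1 else 0 := by
    intro z
    rw [Finset.sum_eq_single (out z)]
    · rw [hits, card_filter]
      refine sum_congr rfl fun k _ => ?_
      by_cases h : cont z k = a (out z) k
      · rw [if_pos h, if_pos ⟨rfl, h⟩]
      · rw [if_neg h, if_neg fun h' => h h'.2]
    · intro ρ _ hρ
      refine sum_eq_zero fun k _ => ?_
      rw [if_neg fun h => hρ h.1.symm]
    · intro h
      exact absurd (mem_univ _) h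
  rw [sum_congr rfl fun z _ => h1 z, sum_comm]
  refine sum_congr rfl fun ρ _ => ?_
  rw [sum_comm]
  refine sum_congr rfl fun k _ => ?_
  rw [← card_row, card_filter]

lemma hits_lower (a : (R → Bool) → Fin b → C → Bool) (F : Finset (Conf b C R)) (m : ℕ) :
    m * #F ≤ m * #{z : Conf b C R | hits a z < m} + ∑ z ∈ F, hits a z := by
  classical
  have h2 : m * #(F.filter fun z => ¬ hits a z < m) ≤ ∑ z ∈ F, hits a z := by
    calc m * #(F.filter fun z => ¬ hits a z < m)
        = ∑ _z ∈ F.filter (fun z => ¬ hits a z < m), m := by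
          rw [Finset.sum_const, smul_eq_mul, mul_comm]
      _ ≤ ∑ z ∈ F.filter (fun z => ¬ hits a z < m), hits a z :=
          Finset.sum_le_sum fun z hz => not_lt.1 (Finset.mem_filter.1 hz).2
      _ ≤ _ := Finset.sum_le_sum_of_subset (Finset.filter_subset _ _)
  have h3 : #F = #(F.filter fun z => hits a z < m) + #(F.filter fun z => ¬ hits a z < m) :=
    (Finset.card_filter_add_card_filter_not _).symm
  have h4 : #(F.filter fun z => hits a z < m) ≤ #{z : Conf b C R | hits a z < m} :=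
    Finset.card_le_card (Finset.filter_subset_filter _ (Finset.subset_univ _))
  calc m * #F = m * #(F.filter fun z => hits a z < m) + m * #(F.filter fun z => ¬ hits a z < m) := by
        rw [h3, mul_add]
    _ ≤ _ := Nat.add_le_add (Nat.mul_le_mul_left _ h4) h2

/-- all rows of some block with some rest are large -/
lemma exists_rows {δ η : ℝ} {E t : ℕ} (hδ : 0 < δ) (hE : 32 ≤ E * δ) (ht : 0 < t)
    (ht' : (2 / Real.exp 1) ^ t ≤ δ / 2) (hη : η = δ / 2 ^ (Fintype.card C + 6))
    (hb : b = 2 ^ (Fintype.card C + 1) * t) (F H : Finset (Conf b C R))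
    (hF : δ * (2 ^ Fintype.card R * (2 ^ Fintype.card C) ^ b) ≤ #F)
    (hH : (#H : ℝ) ≤ η * (2 ^ Fintype.card R * (2 ^ Fintype.card C) ^ b)) :
    ∃ (ρ : R → Bool) (k : Fin b), ∀ u : C → Bool,
      4 * (#(H.filter fun z => out z = ρ) : ℝ) + 4 / E * #(cols (C := C) ρ k) < #(row F ρ k u) := by
  classical
  set c := Fintype.card C with hc
  set r := Fintype.card R with hr
  -- the smallest row
  have hmin : ∀ (ρ : R → Bool) (k : Fin b), ∃ u : C → Bool, ∀ u',
      #(row F ρ k u) ≤ #(row F ρ k u') := by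
    intro ρ k
    obtain ⟨u, -, hu⟩ := exists_min_image (univ : Finset (C → Bool)) (fun u => #(row F ρ k u))
      ⟨fun _ => false, mem_univ _⟩
    exact ⟨u, fun u' => hu u' (mem_univ _)⟩
  choose a ha using hmin
  by_contra hcon
  push Not at hcon
  have hle : ∀ (ρ : R → Bool) (k : Fin b), (#(row F ρ k (a ρ k)) : ℝ) ≤
      4 * (#(H.filter fun z => out z = ρ) : ℝ) + 4 / E * #(cols (C := C) ρ k) := by
    intro ρ k
    obtain ⟨u, hu⟩ := hcon ρ k
    have h1 : (#(row F ρ k (a ρ k)) : ℝ) ≤ #(row F ρ k u) := by exact_mod_cast ha ρ k u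
    exact h1.trans hu
  have hsumH : ∑ ρ : R → Bool, (#(H.filter fun z => out z = ρ) : ℝ) = #H := by
    have := card_eq_sum_card_fiberwise (s := H) (t := univ) (f := fun z : Conf b C R => out z)
      (fun z _ => mem_coe.2 (mem_univ _))
    rw [this]
    push_cast
    rfl
  have hsum : (∑ z ∈ F, hits a z : ℝ) ≤
      4 * b * #H + 2 ^ r * b * (4 / E * (2 ^ c) ^ (b - 1)) := by
    have e1 : (∑ z ∈ F, hits a z : ℝ) = ∑ ρ : R → Bool, ∑ k, (#(row F ρ k (a ρ k)) : ℝ) := by
      exact_mod_cast sum_hits a F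
    rw [e1]
    calc ∑ ρ : R → Bool, ∑ k, (#(row F ρ k (a ρ k)) : ℝ)
        ≤ ∑ ρ : R → Bool, ∑ _k : Fin b, (4 * (#(H.filter fun z => out z = ρ) : ℝ) +
            4 / E * (2 ^ c) ^ (b - 1)) := by
          refine sum_le_sum fun ρ _ => sum_le_sum fun k _ => ?_
          have := hle ρ k
          rw [card_cols] at this
          push_cast at this
          exact this
      _ = 4 * b * #H + 2 ^ r * b * (4 / E * (2 ^ c) ^ (b - 1)) := by
          simp only [sum_const, card_univ, Fintype.card_fin, nsmul_eq_mul]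
          rw [← mul_sum, sum_add_distrib, ← mul_sum, hsumH, sum_const, card_univ,
            Fintype.card_fun, Fintype.card_bool, nsmul_eq_mul]
          push_cast
          ring
  have hlow : (t : ℝ) * #F ≤ t * #{z : Conf b C R | hits a z < t} + ∑ z ∈ F, (hits a z : ℝ) := by
    exact_mod_cast hits_lower a F t
  have hfew := few_hits a t
  rw [← hr, ← hc] at hfew
  -- numbers
  set q : ℝ := 2 ^ c with hq
  have hq0 : 0 < q := by positivity
  have hq1 : 1 ≤ q := one_le_pow₀ (by norm_num)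
  set W : ℝ := 2 ^ r * q ^ b with hW
  have hW0 : 0 < W := by positivity
  have ht0 : (0 : ℝ) < t := by exact_mod_cast ht
  have hbr : (b : ℝ) = 2 * q * t := by
    rw [hb, hq]
    push_cast
    ring
  have hb1 : 1 ≤ b := by
    rw [hb]
    exact Nat.succ_le_of_lt (by positivity)
  have hqb : q * q ^ (b - 1) = q ^ b := by
    rw [← pow_succ']
    congr 1
    omega
  have hfew2 : (2 : ℝ) ^ t * (2 ^ r * (q - 1 / 2) ^ b) ≤ δ / 2 * W := by
    have e1 : (q - 1 / 2) ^ b ≤ q ^ b * Real.exp (-t) := by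
      have e2 : q - 1 / 2 = q * (1 - 1 / (2 * q)) := by
        field_simp
      have e3 : 1 - 1 / (2 * q) ≤ Real.exp (-(1 / (2 * q))) := by
        have := Real.add_one_le_exp (-(1 / (2 * q)))
        linarith
      have e4 : 0 ≤ 1 - 1 / (2 * q) := by
        have : 1 / (2 * q) ≤ 1 := by
          rw [div_le_one (by positivity)]
          linarith
        linarith
      rw [e2, mul_pow]
      refine mul_le_mul_of_nonneg_left ?_ (by positivity)
      calc (1 - 1 / (2 * q)) ^ b ≤ (Real.exp (-(1 / (2 * q)))) ^ b :=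
            pow_le_pow_left₀ e4 e3 b
        _ = Real.exp (-t) := by
            rw [← Real.exp_nat_mul, hbr]
            congr 1
            field_simp
    have e5 : (2 : ℝ) ^ t * Real.exp (-t) = (2 / Real.exp 1) ^ t := by
      rw [div_pow, ← Real.exp_nat_mul, mul_one, Real.exp_neg]
      rfl
    calc (2 : ℝ) ^ t * (2 ^ r * (q - 1 / 2) ^ b) ≤ 2 ^ t * (2 ^ r * (q ^ b * Real.exp (-t))) := by
          gcongr
      _ = (2 ^ t * Real.exp (-t)) * W := by rw [hW]; ring
      _ ≤ δ / 2 * W := by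
          rw [e5]
          exact mul_le_mul_of_nonneg_right ht' hW0.le
  have hfew3 : (#{z : Conf b C R | hits a z < t} : ℝ) ≤ δ / 2 * W := hfew.trans hfew2
  have hE0 : (0 : ℝ) < E := by
    by_contra h0
    have : (E : ℝ) * δ ≤ 0 := mul_nonpos_of_nonpos_of_nonneg (not_lt.1 h0) hδ.le
    linarith
  have h1 : (t : ℝ) * (δ * W) ≤ t * (δ / 2 * W) +
      (4 * b * (η * W) + 2 ^ r * b * (4 / E * q ^ (b - 1))) := by
    have e1 : (t : ℝ) * (δ * W) ≤ t * #F := mul_le_mul_of_nonneg_left hF ht0.le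
    have e2 : (t : ℝ) * #{z : Conf b C R | hits a z < t} ≤ t * (δ / 2 * W) :=
      mul_le_mul_of_nonneg_left hfew3 ht0.le
    have e3 : 4 * (b : ℝ) * #H ≤ 4 * b * (η * W) :=
      mul_le_mul_of_nonneg_left hH (by positivity)
    linarith
  have h2 : 4 * (b : ℝ) * (η * W) = t * (δ / 8) * W := by
    have e1 : (2 : ℝ) ^ (c + 6) = 64 * q := by rw [hq]; ring
    rw [hη, hbr, e1]
    field_simp
    ring
  have h3 : 2 ^ r * (b : ℝ) * (4 / E * q ^ (b - 1)) = t * (8 / E) * W := by
    rw [hW, ← hqb, hbr]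
    ring
  have h4 : 8 / (E : ℝ) ≤ δ / 4 := by
    rw [div_le_iff₀ hE0]
    linarith
  have h5 : (t : ℝ) * (8 / E) * W ≤ t * (δ / 4) * W := by gcongr
  rw [h2, h3] at h1
  have h6 : 0 < (t : ℝ) * δ * W := by positivity
  nlinarith

/-- **Core theorem**. -/
theorem core (v : ℕ) (δ : ℝ) (hδ : 0 < δ) : ∃ M : ℕ, 0 < M ∧ ∀ (C : Type) [Fintype C]
    [DecidableEq C], ∃ (b : ℕ) (η : ℝ), 0 < b ∧ 0 < η ∧ ∀ (R : Type) [Fintype R] [DecidableEq R]
      (Q : Set ((C → Bool) × (C → Bool))),
      (∀ χ : (C → Bool) → Fin M, ∃ p ∈ Q, χ p.1 = χ p.2) →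
      ∀ F G : Finset (Conf b C R), (∀ ρ k, ¬ Shat (fun z => z ∈ F) v ρ k) →
        δ * (2 ^ Fintype.card R * (2 ^ Fintype.card C) ^ b) ≤ #F →
        (#(F \ G) : ℝ) ≤ η * (2 ^ Fintype.card R * (2 ^ Fintype.card C) ^ b) →
        ∃ (y : Conf b C R) (k : Fin b), ∃ p ∈ Q, put y k p.1 ∈ G ∧ put y k p.2 ∈ G := by
  obtain ⟨E, hE⟩ := exists_nat_gt (32 / δ)
  have hE1 : 32 ≤ ((E + 2 : ℕ) : ℝ) * δ := by
    rw [div_lt_iff₀ hδ] at hE
    push_cast
    nlinarith
  -- the number of colours
  obtain ⟨a, ha⟩ : ∃ a : ℕ, (2 * a * (E + 2) + 1) ^ (2 ^ v) < 2 ^ a := by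
    have h1 := tendsto_pow_const_div_const_pow_of_one_lt (2 ^ v) (show (1 : ℝ) < 2 by norm_num)
    have h2 := h1.const_mul ((2 * ((E : ℝ) + 2) + 1) ^ (2 ^ v))
    rw [mul_zero] at h2
    obtain ⟨a, ha1, ha⟩ := ((Filter.eventually_ge_atTop 1).and
      (h2.eventually (gt_mem_nhds (show (0 : ℝ) < 1 by norm_num)))).exists
    refine ⟨a, ?_⟩
    have ha1' : (1 : ℝ) ≤ a := by exact_mod_cast ha1
    have h3 : ((2 * a * (E + 2) + 1 : ℕ) : ℝ) ^ (2 ^ v) < 2 ^ a := by
      have e1 : ((2 * a * (E + 2) + 1 : ℕ) : ℝ) ≤ (2 * ((E : ℝ) + 2) + 1) * a := by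
        push_cast
        nlinarith
      calc ((2 * a * (E + 2) + 1 : ℕ) : ℝ) ^ (2 ^ v)
          ≤ ((2 * ((E : ℝ) + 2) + 1) * a) ^ (2 ^ v) := pow_le_pow_left₀ (by positivity) e1 _
        _ = ((2 * ((E : ℝ) + 2) + 1) ^ (2 ^ v) * ((a : ℝ) ^ (2 ^ v) / 2 ^ a)) * 2 ^ a := by
            rw [mul_pow]
            field_simp
        _ < 1 * 2 ^ a := mul_lt_mul_of_pos_right ha (by positivity)
        _ = 2 ^ a := one_mul _
    exact_mod_cast h3
  refine ⟨2 ^ a, by positivity, ?_⟩
  intro C _ _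
  -- the number of blocks
  obtain ⟨t, ht1, ht⟩ : ∃ t : ℕ, 0 < t ∧ (2 / Real.exp 1) ^ t ≤ δ / 2 := by
    have h0 : (2 : ℝ) / Real.exp 1 < 1 := by
      rw [div_lt_one (Real.exp_pos _)]
      have := Real.exp_one_gt_d9
      linarith
    obtain ⟨t, ht⟩ := exists_pow_lt_of_lt_one (show 0 < δ / 2 by positivity) h0
    refine ⟨t + 1, Nat.succ_pos _, ?_⟩
    refine le_trans ?_ ht.le
    exact pow_le_pow_of_le_one (by positivity) h0.le (Nat.le_succ _)
  refine ⟨2 ^ (Fintype.card C + 1) * t, δ / 2 ^ (Fintype.card C + 6), by positivity, by positivity,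
    ?_⟩
  intro R _ _ Q hQ F G hsh hF hFG
  classical
  obtain ⟨ρ, k, hrow⟩ := exists_rows hδ hE1 ht1 ht rfl rfl F (F \ G) hF hFG
  have hne : (cols ρ k : Finset (Conf (2 ^ (Fintype.card C + 1) * t) C R)).Nonempty := by
    rw [← card_pos, card_cols]
    positivity
  obtain ⟨p, hpQ, hp⟩ := near_pair (rowVC (hsh ρ k)) hne (by omega : 2 ≤ E + 2) ha Q hQ
  by_contra hcon
  push Not at hcon
  -- the common part of the rows
  set H := (F \ G).filter fun z => out z = ρ with hH
  set X := row F ρ k p.1 ∩ row F ρ k p.2 with hX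
  have h1 : #(row F ρ k p.1) ≤ #X + #((cols ρ k).filter fun y : Conf _ C R =>
      decide (put y k p.1 ∈ F) ≠ decide (put y k p.2 ∈ F)) := by
    refine le_trans (card_le_card ?_) (card_union_le _ _)
    intro y hy
    rw [mem_union, mem_inter]
    by_cases h2 : y ∈ row F ρ k p.2
    · exact Or.inl ⟨hy, h2⟩
    · right
      rw [row, mem_filter] at hy h2
      rw [mem_filter]
      refine ⟨hy.1, ?_⟩
      have h3 : put y k p.2 ∉ F := fun h => h2 ⟨hy.1, h⟩
      rw [decide_eq_true hy.2, decide_eq_false h3]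
      decide
  have h2 : #X ≤ 2 * #H := by
    have e1 : X ⊆ (X.filter fun y => put y k p.1 ∈ H) ∪ (X.filter fun y => put y k p.2 ∈ H) := by
      intro y hy
      have hyX := hy
      rw [hX, mem_inter, row, row, mem_filter, mem_filter] at hy
      obtain ⟨⟨hyc, hy1⟩, -, hy2⟩ := hy
      have ho := (mem_cols.1 hyc).1
      by_cases h3 : put y k p.1 ∈ G
      · refine mem_union_right _ (mem_filter.2 ⟨hyX, ?_⟩)
        exact mem_filter.2 ⟨mem_sdiff.2 ⟨hy2, hcon y k p hpQ h3⟩, (out_put _ _ _).trans ho⟩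
      · refine mem_union_left _ (mem_filter.2 ⟨hyX, ?_⟩)
        exact mem_filter.2 ⟨mem_sdiff.2 ⟨hy1, h3⟩, (out_put _ _ _).trans ho⟩
    have e2 : ∀ u : C → Bool, #(X.filter fun y => put y k u ∈ H) ≤ #H := by
      intro u
      refine card_le_card_of_injOn (fun y => put y k u) (fun y hy => (mem_filter.1 hy).2) ?_
      intro y hy y' hy' heq
      have hy1 := (mem_filter.1 (mem_coe.1 hy)).1
      have hy1' := (mem_filter.1 (mem_coe.1 hy')).1
      rw [hX, mem_inter, row, mem_filter] at hy1 hy1'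
      have c1 := (mem_cols.1 hy1.1.1).2
      have c1' := (mem_cols.1 hy1'.1.1).2
      have e3 := put_put y k u
      have e4 := put_put y' k u
      simp only at heq
      rw [c1, heq, ← c1', e4] at e3
      exact e3.symm
    calc #X ≤ _ := card_le_card e1
      _ ≤ _ := card_union_le _ _
      _ ≤ #H + #H := Nat.add_le_add (e2 _) (e2 _)
      _ = 2 * #H := by ring
  have h3 := hrow p.1
  have hE0 : (0 : ℝ) < ((E + 2 : ℕ) : ℝ) := by positivity
  have h4 : (#((cols ρ k).filter fun y : Conf _ C R =>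
      decide (put y k p.1 ∈ F) ≠ decide (put y k p.2 ∈ F)) : ℝ) ≤
      2 / ((E + 2 : ℕ) : ℝ) * #(cols (C := C) ρ k) := by
    rw [div_mul_eq_mul_div, le_div_iff₀ hE0, mul_comm]
    exact_mod_cast hp
  have h5 : (#(row F ρ k p.1) : ℝ) ≤ #X + #((cols ρ k).filter fun y : Conf _ C R =>
      decide (put y k p.1 ∈ F) ≠ decide (put y k p.2 ∈ F)) := by exact_mod_cast h1
  have h6 : (#X : ℝ) ≤ 2 * #H := by exact_mod_cast h2
  have h7 : (0 : ℝ) ≤ 2 / ((E + 2 : ℕ) : ℝ) * #(cols (C := C) ρ k) := by positivity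
  have h8 : 4 / ((E + 2 : ℕ) : ℝ) * #(cols (C := C) ρ k) =
      2 * (2 / ((E + 2 : ℕ) : ℝ) * #(cols (C := C) ρ k)) := by ring
  have h9 : (0 : ℝ) ≤ #H := Nat.cast_nonneg _
  rw [h8] at h3
  linarith

end core

end Pool.Agent.J4.H83.PH
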