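import Pool.Agent.J4.H83.PH.Signs

/-!
# Boolean combinations, thresholds with a margin, sharpness
-/

set_option autoImplicit false

namespace Pool.Agent.J4.H83.PH

open Finset Pool.Agent.Y613.PJ Pool.Agent.H238R2.LR

variable {d N : ℕ}

/-- Boolean combinations -/
lemma not_shattered_comb {s v v' : ℕ} (hv : ((v' + 1) ^ v) ^ s < 2 ^ v')
    (R0 : (Fin s → Prop) → Prop) (G : Fin s → Finset (Finset (Fin d → Fin N)))
    {F : Finset (Finset (Fin d → Fin N))} (hF : ∀ A, A ∈ F ↔ R0 fun j => A ∈ G j)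
    (B D : Finset (Fin d → Fin N)) (hG : ∀ j, ¬ Shattered (G j) B D v) :
    ¬ Shattered F B D v' := by
  classical
  rintro ⟨x, ρ, h⟩
  choose y hy1 hy2 using h
  set pat : Finset (Fin v') → Fin s → Finset (Fin v') := fun T j =>
    univ.filter fun i => (x i ∩ B) ∪ (y T \ B) ∈ G j with hpat
  have hinj : Function.Injective pat := by
    intro T T' hTT
    ext i
    rw [← hy2 T i, ← hy2 T' i, hF, hF]
    have : (fun j => (x i ∩ B) ∪ (y T \ B) ∈ G j) = fun j => (x i ∩ B) ∪ (y T' \ B) ∈ G j := by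
      funext j
      have h1 := congrFun hTT j
      have h2 : i ∈ pat T j ↔ i ∈ pat T' j := by rw [h1]
      simp only [hpat, mem_filter, mem_univ, true_and] at h2
      exact propext h2
    rw [this]
  have hcard : ∀ j, #(univ.image fun T => pat T j) ≤ (v' + 1) ^ v := by
    intro j
    set 𝒯 : Finset (Finset (Fin v')) := univ.image fun T => pat T j with h𝒯
    have h1 : RowVC (fun (T : Finset (Fin v')) (i : Fin v') => decide (i ∈ T)) 𝒯 univ v := by
      intro S _ hS
      by_contra hlt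
      push Not at hlt
      have hcS : Fintype.card (Fin v) ≤ Fintype.card S := by
        rw [Fintype.card_fin, Fintype.card_coe]
        exact hlt.le
      obtain ⟨e⟩ := Function.Embedding.nonempty_of_card_le hcS
      apply hG j
      refine ⟨fun i => x (e i), ρ, fun T => ?_⟩
      obtain ⟨P, hP, hPS⟩ := hS (T.image fun i => ((e i : S) : Fin v')) (by
        intro i hi
        obtain ⟨i', -, rfl⟩ := mem_image.1 hi
        exact (e i').2)
      obtain ⟨T', -, rfl⟩ := mem_image.1 hP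
      refine ⟨y T', hy1 T', fun i => ?_⟩
      have h2 := hPS (e i) (e i).2
      rw [decide_eq_true_iff] at h2
      have h3 : ((e i : S) : Fin v') ∈ pat T' j ↔ (x (e i) ∩ B) ∪ (y T' \ B) ∈ G j := by
        simp [hpat]
      rw [← h3, h2, mem_image]
      constructor
      · rintro ⟨i', hi', h4⟩
        have : i' = i := e.injective (Subtype.ext h4)
        rwa [← this]
      · intro hi
        exact ⟨i, hi, rfl⟩
    have h2 := sauer (fun (T : Finset (Fin v')) (i : Fin v') => decide (i ∈ T)) 𝒯 𝒯 univ univ v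
      (subset_univ _) h1 (Subset.refl _) (by
        intro T _ T' _ h3
        ext i
        have := h3 i (mem_univ _)
        rwa [decide_eq_decide] at this)
    rwa [card_univ, Fintype.card_fin] at h2
  have h1 : #((univ : Finset (Finset (Fin v'))).image pat) ≤
      #(Fintype.piFinset fun j => univ.image fun T => pat T j) := by
    refine card_le_card fun P hP => ?_
    obtain ⟨T, -, rfl⟩ := mem_image.1 hP
    exact Fintype.mem_piFinset.2 fun j => mem_image.2 ⟨T, mem_univ _, rfl⟩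
  rw [card_image_of_injective _ hinj, card_univ, Fintype.card_finset, Fintype.card_fin,
    Fintype.card_piFinset] at h1
  have h2 : ∏ j : Fin s, #(univ.image fun T => pat T j) ≤ ((v' + 1) ^ v) ^ s := by
    calc ∏ j : Fin s, #(univ.image fun T => pat T j) ≤ ∏ _j : Fin s, (v' + 1) ^ v :=
          prod_le_prod' fun j _ => hcard j
      _ = _ := by rw [prod_const, card_univ, Fintype.card_fin]
  omega

/-- `g A` is a combination, with coefficients of total size at most `M`, of products of a function of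
`A ∩ B` and a function of `A \ B` with values in `[-1, 1]`. -/
def FlatWeight (M : ℝ) (B : Finset (Fin d → Fin N)) (g : Finset (Fin d → Fin N) → ℝ) : Prop :=
  ∃ (n : ℕ) (lam : Fin n → ℝ) (a b : Fin n → Finset (Fin d → Fin N) → ℝ), ∑ i, |lam i| ≤ M ∧
    (∀ i X, |a i X| ≤ 1) ∧ (∀ i X, |b i X| ≤ 1) ∧
      ∀ A, g A = ∑ i, lam i * (a i (A ∩ B) * b i (A \ B))

/-- balancing signs -/
lemma exists_signs {n : ℕ} (w : Fin n → ℝ) (hw : ∀ t, 0 ≤ w t) (v : ℕ) (c : Fin v → Fin n → ℝ)
    (hc : ∀ i t, |c i t| ≤ 1) : ∀ I : Finset (Fin v), ∃ s : Fin v → ℝ, (∀ i, s i = 1 ∨ s i = -1) ∧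
      ∑ t, w t * (∑ i ∈ I, s i * c i t) ^ 2 ≤ #I * ∑ t, w t := by
  classical
  intro I
  induction I using Finset.induction_on with
  | empty => exact ⟨fun _ => 1, fun _ => Or.inl rfl, by simp⟩
  | insert i I hi ih =>
    obtain ⟨s, hs, h⟩ := ih
    have hsq : ∀ t, c i t ^ 2 ≤ 1 := fun t => by
      have := hc i t
      rw [← sq_abs]
      have h0 := abs_nonneg (c i t)
      nlinarith
    have key : ∀ ε : ℝ, (ε = 1 ∨ ε = -1) →
        ε * ∑ t, w t * ((∑ j ∈ I, s j * c j t) * c i t) ≤ 0 →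
        ∃ s' : Fin v → ℝ, (∀ i, s' i = 1 ∨ s' i = -1) ∧
          ∑ t, w t * (∑ j ∈ insert i I, s' j * c j t) ^ 2 ≤ #(insert i I) * ∑ t, w t := by
      intro ε hε hle
      refine ⟨fun j => if j = i then ε else s j, fun j => ?_, ?_⟩
      · dsimp only
        split_ifs
        · exact hε
        · exact hs j
      have e1 : ∀ t, ∑ j ∈ insert i I, (if j = i then ε else s j) * c j t =
          ε * c i t + ∑ j ∈ I, s j * c j t := by
        intro t
        rw [sum_insert hi, if_pos rfl]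
        congr 1
        refine sum_congr rfl fun j hj => ?_
        rw [if_neg (by rintro rfl; exact hi hj)]
      simp only [e1]
      have hε2 : ε ^ 2 = 1 := by rcases hε with h | h <;> rw [h] <;> norm_num
      have e2 : ∑ t, w t * (ε * c i t + ∑ j ∈ I, s j * c j t) ^ 2 =
          ∑ t, w t * (∑ j ∈ I, s j * c j t) ^ 2 + ∑ t, w t * c i t ^ 2 +
            2 * (ε * ∑ t, w t * ((∑ j ∈ I, s j * c j t) * c i t)) := by
        rw [mul_sum, mul_sum, ← sum_add_distrib, ← sum_add_distrib]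
        refine sum_congr rfl fun t _ => ?_
        have : (ε * c i t) ^ 2 = c i t ^ 2 := by rw [mul_pow, hε2, one_mul]
        calc w t * (ε * c i t + ∑ j ∈ I, s j * c j t) ^ 2
            = w t * ((ε * c i t) ^ 2 + (∑ j ∈ I, s j * c j t) ^ 2 +
                2 * (ε * c i t * ∑ j ∈ I, s j * c j t)) := by ring
          _ = _ := by rw [this]; ring
      have e3 : ∑ t, w t * c i t ^ 2 ≤ ∑ t, w t :=
        sum_le_sum fun t _ => by
          have := mul_le_mul_of_nonneg_left (hsq t) (hw t)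
          linarith
      rw [e2, card_insert_of_notMem hi]
      push_cast
      nlinarith
    rcases le_total (∑ t, w t * ((∑ j ∈ I, s j * c j t) * c i t)) 0 with h1 | h1
    · exact key 1 (Or.inl rfl) (by linarith)
    · exact key (-1) (Or.inr rfl) (by linarith)

/-- thresholds with a margin -/
lemma not_shattered_margin {M : ℝ} {v : ℕ} (hv : M ^ 2 < v)
    {F : Finset (Finset (Fin d → Fin N))} (B D : Finset (Fin d → Fin N))
    (g : Finset (Fin d → Fin N) → ℝ) (hg : FlatWeight M B g)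
    (hF : ∀ A, (A ∈ F → 1 ≤ g A) ∧ (A ∉ F → g A ≤ -1)) : ¬ Shattered F B D v := by
  classical
  rintro ⟨x, ρ, h⟩
  obtain ⟨n, lam, a, b, h1, h2, h3, h4⟩ := hg
  have hv0 : (0 : ℝ) < v := lt_of_le_of_lt (sq_nonneg _) hv
  obtain ⟨s, hs, hsum⟩ := exists_signs (fun t => |lam t|) (fun t => abs_nonneg _) v
    (fun i t => a t (x i ∩ B)) (fun i t => h2 t _) univ
  rw [card_univ, Fintype.card_fin] at hsum
  obtain ⟨y, -, hy⟩ := h (univ.filter fun i => s i = 1)
  -- the sum with signs is large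
  have h5 : ∀ i, 1 ≤ s i * g ((x i ∩ B) ∪ (y \ B)) := by
    intro i
    have h6 := hy i
    rw [mem_filter] at h6
    rcases hs i with h7 | h7
    · rw [h7, one_mul]
      exact (hF _).1 (h6.2 ⟨mem_univ _, h7⟩)
    · have h8 : (x i ∩ B) ∪ (y \ B) ∉ F := by
        intro h9
        have := (h6.1 h9).2
        rw [h7] at this
        norm_num at this
      have := (hF _).2 h8
      rw [h7]
      linarith
  have h6 : (v : ℝ) ≤ ∑ i, s i * g ((x i ∩ B) ∪ (y \ B)) := by
    calc (v : ℝ) = ∑ _i : Fin v, (1 : ℝ) := by simp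
      _ ≤ _ := sum_le_sum fun i _ => h5 i
  have h7 : ∀ i, g ((x i ∩ B) ∪ (y \ B)) = ∑ t, lam t * (a t (x i ∩ B) * b t (y \ B)) := by
    intro i
    have e1 : ((x i ∩ B) ∪ (y \ B)) ∩ B = x i ∩ B := by
      ext c
      simp only [mem_inter, mem_union, mem_sdiff]
      tauto
    have e2 : ((x i ∩ B) ∪ (y \ B)) \ B = y \ B := by
      ext c
      simp only [mem_inter, mem_union, mem_sdiff]
      tauto
    rw [h4, e1, e2]
  have h8 : ∑ i, s i * g ((x i ∩ B) ∪ (y \ B)) ≤ ∑ t, |lam t| * |∑ i, s i * a t (x i ∩ B)| := by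
    have e1 : ∑ i, s i * g ((x i ∩ B) ∪ (y \ B)) =
        ∑ t, lam t * b t (y \ B) * ∑ i, s i * a t (x i ∩ B) := by
      simp only [h7, mul_sum]
      rw [sum_comm]
      exact sum_congr rfl fun t _ => sum_congr rfl fun i _ => by ring
    rw [e1]
    refine sum_le_sum fun t _ => ?_
    calc lam t * b t (y \ B) * ∑ i, s i * a t (x i ∩ B)
        ≤ |lam t * b t (y \ B) * ∑ i, s i * a t (x i ∩ B)| := le_abs_self _
      _ = |lam t| * |b t (y \ B)| * |∑ i, s i * a t (x i ∩ B)| := by rw [abs_mul, abs_mul]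
      _ ≤ |lam t| * 1 * |∑ i, s i * a t (x i ∩ B)| := by
          have := h3 t (y \ B)
          gcongr
      _ = _ := by rw [mul_one]
  have h9 : (∑ t, |lam t| * |∑ i, s i * a t (x i ∩ B)|) ^ 2 ≤
      (∑ t, |lam t|) * ∑ t, |lam t| * (∑ i, s i * a t (x i ∩ B)) ^ 2 := by
    have e1 := Finset.sum_mul_sq_le_sq_mul_sq univ (fun t => √|lam t|)
      (fun t => √|lam t| * |∑ i, s i * a t (x i ∩ B)|)
    have e2 : ∀ t, √|lam t| * (√|lam t| * |∑ i, s i * a t (x i ∩ B)|) =
        |lam t| * |∑ i, s i * a t (x i ∩ B)| := fun t => by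
      rw [← mul_assoc, Real.mul_self_sqrt (abs_nonneg _)]
    have e3 : ∀ t, √|lam t| ^ 2 = |lam t| := fun t => Real.sq_sqrt (abs_nonneg _)
    have e4 : ∀ t, (√|lam t| * |∑ i, s i * a t (x i ∩ B)|) ^ 2 =
        |lam t| * (∑ i, s i * a t (x i ∩ B)) ^ 2 := fun t => by
      rw [mul_pow, Real.sq_sqrt (abs_nonneg _), sq_abs]
    simp only [e2, e3, e4] at e1
    exact e1
  have hL0 : 0 ≤ ∑ t, |lam t| := sum_nonneg fun t _ => abs_nonneg _
  have h10 : (v : ℝ) ^ 2 ≤ M ^ 2 * v := by
    have e1 : (v : ℝ) ≤ ∑ t, |lam t| * |∑ i, s i * a t (x i ∩ B)| := h6.trans h8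
    calc (v : ℝ) ^ 2 ≤ (∑ t, |lam t| * |∑ i, s i * a t (x i ∩ B)|) ^ 2 :=
          pow_le_pow_left₀ hv0.le e1 2
      _ ≤ _ := h9
      _ ≤ (∑ t, |lam t|) * (v * ∑ t, |lam t|) := mul_le_mul_of_nonneg_left hsum hL0
      _ = (∑ t, |lam t|) ^ 2 * v := by ring
      _ ≤ M ^ 2 * v := by
          gcongr
  nlinarith

/-- a large family which is not good -/
lemma exists_layer (d N : ℕ) (hd : 1 ≤ d) : ∃ (m : ℕ) (F : Finset (Finset (Fin d → Fin N))),
    (∀ A, A ∈ F ↔ ∑ c ∈ A, (if ∀ i j, c i = c j then (1 : ℤ) else 0) = m) ∧ ¬ Good F ∧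
      (2 : ℝ) ^ (N ^ d) ≤ (N + 1) * #F := by
  classical
  set D : Finset (Fin d → Fin N) := univ.filter fun c => ∀ i j, c i = c j with hD
  have hDc : #D ≤ N := by
    have h1 : D ⊆ (univ : Finset (Fin N)).image fun i _ => i := by
      intro c hc
      rw [mem_image]
      exact ⟨c ⟨0, hd⟩, mem_univ _, funext fun i => (mem_filter.1 hc).2 _ _⟩
    refine (card_le_card h1).trans (card_image_le.trans ?_)
    simp
  set L : ℕ → Finset (Finset (Fin d → Fin N)) := fun m => univ.filter fun A => #(A ∩ D) = m with hL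
  -- pigeonhole
  obtain ⟨m, hm, hmax⟩ : ∃ m ∈ range (N + 1), (2 : ℝ) ^ (N ^ d) ≤ (N + 1) * #(L m) := by
    by_contra hcon
    push Not at hcon
    have h1 : #(univ : Finset (Finset (Fin d → Fin N))) = ∑ m ∈ range (N + 1), #(L m) := by
      refine card_eq_sum_card_fiberwise (f := fun A => #(A ∩ D)) fun A _ => ?_
      rw [mem_coe, mem_range]
      have := card_le_card (inter_subset_right : A ∩ D ⊆ D)
      change #(A ∩ D) < N + 1
      omega
    rw [card_univ, Fintype.card_finset, Fintype.card_fun, Fintype.card_fin, Fintype.card_fin] at h1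
    have h2 : (2 : ℝ) ^ (N ^ d) = ∑ m ∈ range (N + 1), (#(L m) : ℝ) := by exact_mod_cast h1
    have h3 : ∑ m ∈ range (N + 1), ((N : ℝ) + 1) * (#(L m) : ℝ) <
        ∑ _m ∈ range (N + 1), (2 : ℝ) ^ (N ^ d) :=
      sum_lt_sum_of_nonempty ⟨0, by simp⟩ fun m hm => hcon m hm
    rw [← mul_sum, ← h2, sum_const, card_range, nsmul_eq_mul] at h3
    push_cast at h3
    exact lt_irrefl _ h3
  have hsum : ∀ A : Finset (Fin d → Fin N),
      ∑ c ∈ A, (if ∀ i j, c i = c j then (1 : ℤ) else 0) = (#(A ∩ D) : ℤ) := by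
    intro A
    rw [← sum_filter, sum_const, nsmul_eq_mul, mul_one]
    congr 2
    ext c
    simp [hD]
  refine ⟨m, L m, fun A => ?_, ?_, hmax⟩
  · rw [hsum]
    simp only [hL, mem_filter, mem_univ, true_and]
    exact_mod_cast Iff.rfl
  · rintro ⟨A, hA, γ, ⟨i, hi⟩, hdis, hA'⟩
    simp only [hL, mem_filter, mem_univ, true_and] at hA hA'
    have hc : (fun _ => i : Fin d → Fin N) ∈ cube d γ := Fintype.mem_piFinset.2 fun _ => hi
    have hcA : (fun _ => i : Fin d → Fin N) ∉ A := fun h => (Finset.disjoint_left.1 hdis) h hc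
    have h1 : A ∩ D ⊂ (A ∪ cube d γ) ∩ D := by
      refine ⟨inter_subset_inter_right subset_union_left, fun h => ?_⟩
      have h2 : (fun _ => i : Fin d → Fin N) ∈ (A ∪ cube d γ) ∩ D :=
        mem_inter.2 ⟨mem_union_right _ hc, mem_filter.2 ⟨mem_univ _, fun _ _ => rfl⟩⟩
      exact hcA (mem_inter.1 (h h2)).1
    have := card_lt_card h1
    omega

end Pool.Agent.J4.H83.PH
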