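import Pool.Agent.J4.H83.PH.Signs

/-!
# Programs of real matrices

The first theorem is a variant of a theorem of the starting library (`Pool.Agent.R756.WP.Prog`).
-/

set_option autoImplicit false
set_option linter.unusedSectionVars false

namespace Pool.Agent.J4.H83.PH

open Finset Pool.Agent.Y613.PJ Pool.Agent.Y613.RA Pool.Agent.R756.WP

section hom

variable {K Q : Type} [Field K] [Fintype Q] [DecidableEq Q]

/-- a homogeneous set gives blocks of small rank -/
theorem rank_of_hom {d : ℕ} (hd : 1 ≤ d) {w p l : ℕ} [Nonempty Q]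
    (hQ : Fintype.card Q ≤ w)
    (M : ℕ → Bool → Matrix Q Q K) {N K₀ n : ℕ}
    (cell : ℕ → Option (Fin d → Fin N)) (hp : ∀ t < n, ∀ c, cell t = some c → occ cell t ≤ p)
    (T : Finset ℕ) (hTN : T ⊆ Finset.range N) (hTK : #T = K₀ + 2 * d) (hom : Hom p cell n T) :
    ∃ σ : Fin N ≃ Fin N, ∀ (b : ℕ) (hb : b * l ≤ N), b * l ≤ K₀ →
      ∀ (ρ : Rest σ hb d → Bool) (k : Fin b), ∃ (κ : Type) (_ : Fintype κ)
        (α : κ → Conf b (Fin d → Fin l) (Rest σ hb d) → K)
        (β : κ → Conf b (Fin d → Fin l) (Rest σ hb d) → Matrix Q Q K),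
        Fintype.card κ ≤ (w ^ 2) ^ Fintype.card ((Fin d → Fin d → Bool) × Fin (p + 1)) ∧
        (∀ i y y', out y = ρ → out y' = ρ → cont y k = cont y' k → α i y = α i y') ∧
        (∀ i y u, out y = ρ → β i (put y k u) = β i y) ∧
        ∀ y, out y = ρ → pr M cell 0 n (fun c => y ((cellEquiv hd σ hb).symm c)) =
          ∑ i, α i y • β i y := by
  classical
  -- the numbering
  have hKN : K₀ + 2 * d ≤ N := by
    have := Finset.card_le_card hTN
    rwa [hTK, Finset.card_range] at this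
  let E : Fin (K₀ + 2 * d) → ℕ := fun i => T.orderEmbOfFin hTK i
  have hEm : StrictMono E := (T.orderEmbOfFin hTK).strictMono
  have hET : ∀ i, E i ∈ T := fun i => Finset.orderEmbOfFin_mem T hTK i
  have hEN : ∀ i, E i < N := fun i => Finset.mem_range.1 (hTN (hET i))
  obtain ⟨g, hg⟩ := Finset.exists_equiv_extend_of_card_eq (α := Fin N) (β := Fin N)
    (t := Finset.univ) (by simp) (s := Finset.univ.filter fun i : Fin N => (i : ℕ) < K₀ + 2 * d)
    (f := fun i => if h : (i : ℕ) < K₀ + 2 * d then ⟨E ⟨i, h⟩, hEN _⟩ else i) (by simp) (by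
      intro i hi j hj hij
      have hi' : (i : ℕ) < K₀ + 2 * d := (Finset.mem_filter.1 hi).2
      have hj' : (j : ℕ) < K₀ + 2 * d := (Finset.mem_filter.1 hj).2
      simp only [dif_pos hi', dif_pos hj', Fin.mk.injEq] at hij
      have := hEm.injective hij
      simp only [Fin.mk.injEq] at this
      exact Fin.ext this)
  let τ : Fin N ≃ Fin N := g.trans (Equiv.subtypeUnivEquiv (fun x => Finset.mem_univ x))
  have hτ : ∀ (i : Fin N) (h : (i : ℕ) < K₀ + 2 * d), ((τ i : Fin N) : ℕ) = E ⟨i, h⟩ := by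
    intro i h
    have h1 := hg i (Finset.mem_filter.2 ⟨Finset.mem_univ _, h⟩)
    have h2 : τ i = (g i : Fin N) := rfl
    rw [h2, h1]
    simp only [dif_pos h]
  refine ⟨τ.symm, ?_⟩
  intro b hb hbK
  intro ρ k
  have hcoord : ∀ (j : Fin b) (a : Fin l), ∃ h : l * (j : ℕ) + a < K₀,
      ((coord τ.symm hb j a : Fin N) : ℕ) = E ⟨l * (j : ℕ) + a, by omega⟩ := by
    intro j a
    have h1 : l * ((j : ℕ) + 1) ≤ l * b := Nat.mul_le_mul_left l j.2
    have h2 := a.2
    rw [mul_add, mul_one] at h1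
    rw [mul_comm b l] at hbK
    refine ⟨by omega, ?_⟩
    unfold coord
    rw [Equiv.symm_symm]
    exact hτ _ _
  set Top : Finset ℕ := Finset.univ.image fun i : Fin (2 * d) => E ⟨K₀ + i, by omega⟩ with hTop
  have hTopT : Top ⊆ T := by
    intro x hx
    obtain ⟨i, -, rfl⟩ := Finset.mem_image.1 hx
    exact hET _
  have hTopc : 2 * d ≤ #Top := by
    rw [hTop, Finset.card_image_of_injective, Finset.card_univ, Fintype.card_fin]
    intro i j hij
    have := hEm.injective hij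
    simp only [Fin.mk.injEq] at this
    exact Fin.ext (by omega)
  have hembT : ∀ (j : Fin b) (y : Fin d → Fin l) (a : Fin d),
      ((emb τ.symm hb (j, y) a : Fin N) : ℕ) ∈ T := by
    intro j y a
    obtain ⟨h1, h2⟩ := hcoord j (y a)
    change ((coord τ.symm hb j (y a) : Fin N) : ℕ) ∈ T
    rw [h2]
    exact hET _
  have hembTop : ∀ (j : Fin b) (y : Fin d → Fin l) (a : Fin d), ∀ x ∈ Top,
      ((emb τ.symm hb (j, y) a : Fin N) : ℕ) < x := by
    intro j y a x hx
    obtain ⟨h1, h2⟩ := hcoord j (y a)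
    obtain ⟨i, -, rfl⟩ := Finset.mem_image.1 hx
    change ((coord τ.symm hb j (y a) : Fin N) : ℕ) < _
    rw [h2]
    apply hEm
    rw [Fin.lt_def]
    simp only
    omega
  have hsep : ∀ j j' : Fin b, j < j' → ∀ (y y' : Fin d → Fin l) (a a' : Fin d),
      emb τ.symm hb (j, y) a < emb τ.symm hb (j', y') a' := by
    intro j j' hjj y y' a a'
    rw [Fin.lt_def]
    obtain ⟨h1, h2⟩ := hcoord j (y a)
    obtain ⟨h3, h4⟩ := hcoord j' (y' a')
    change ((coord τ.symm hb j (y a) : Fin N) : ℕ) < ((coord τ.symm hb j' (y' a') : Fin N) : ℕ)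
    rw [h2, h4]
    apply hEm
    rw [Fin.lt_def]
    simp only
    have h5 : l * ((j : ℕ) + 1) ≤ l * j' := Nat.mul_le_mul_left l hjj
    have h6 := (y a).2
    rw [mul_add, mul_one] at h5
    omega
  -- the block and the other blocks
  set B : Set (Fin d → Fin N) := {c | ∃ y, c = emb τ.symm hb (k, y)} with hB
  set O : Set (Fin d → Fin N) := {c | ∃ j y, j ≠ k ∧ c = emb τ.symm hb (j, y)} with hO
  have hBO : Disjoint B O := by
    rw [Set.disjoint_left]
    rintro c ⟨y, hy⟩ ⟨j, y', hj, hy'⟩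
    rw [hy] at hy'
    have := emb_injective hd τ.symm hb hy'
    rw [Prod.mk.injEq] at this
    exact hj this.1.symm
  let lab : ℕ → (Fin d → Fin d → Bool) × Fin (p + 1) := fun t =>
    match cell t with
    | some c => (fun a a' => decide (c a < c a'), ⟨min (occ cell t) p, by omega⟩)
    | none => (fun _ _ => false, 0)
  have hlab : ∀ t < n, ∀ t' < n, (∃ c ∈ B, cell t = some c) → (∃ c ∈ B, cell t' = some c) →
      lab t = lab t' → ∀ u < n, (∃ c ∈ O, cell u = some c) → (t < u ↔ t' < u) := by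
    rintro t ht t' ht' ⟨c, ⟨x, hx⟩, hc⟩ ⟨c', ⟨x', hx'⟩, hc'⟩ hll u hu ⟨y, ⟨j, x₂, hj, hx₂⟩, hy⟩
    have hocc := hp t ht c hc
    have hocc' := hp t' ht' c' hc'
    have hoccu := hp u hu y hy
    simp only [lab, hc, hc', Prod.mk.injEq, Fin.mk.injEq] at hll
    obtain ⟨hl1, hl2⟩ := hll
    have hoo : occ cell t = occ cell t' := by omega
    have hpat : ∀ a a', c a < c a' ↔ c' a < c' a' := by
      intro a a'
      have := congrFun (congrFun hl1 a) a'
      rwa [decide_eq_decide] at this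
    have hs1 : (∀ a a', c a < y a' ∧ c' a < y a') ∨ (∀ a a', y a' < c a ∧ y a' < c' a) := by
      rcases lt_or_gt_of_ne hj with h | h
      · right
        intro a a'
        rw [hx, hx', hx₂]
        exact ⟨hsep _ _ h _ _ _ _, hsep _ _ h _ _ _ _⟩
      · left
        intro a a'
        rw [hx, hx', hx₂]
        exact ⟨hsep _ _ h _ _ _ _, hsep _ _ h _ _ _ _⟩
    have hcT : ∀ a, ((c a : Fin N) : ℕ) ∈ T := fun a => by rw [hx]; exact hembT _ _ _
    have hcT' : ∀ a, ((c' a : Fin N) : ℕ) ∈ T := fun a => by rw [hx']; exact hembT _ _ _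
    have hyT : ∀ a, ((y a : Fin N) : ℕ) ∈ T := fun a => by rw [hx₂]; exact hembT _ _ _
    have hcTop : ∀ a, ∀ x ∈ Top, ((c a : Fin N) : ℕ) < x := fun a => by
      rw [hx]; exact hembTop _ _ _
    have hcTop' : ∀ a, ∀ x ∈ Top, ((c' a : Fin N) : ℕ) < x := fun a => by
      rw [hx']; exact hembTop _ _ _
    have hpat' : ∀ a a', c' a < c' a' ↔ c a < c a' := fun a a' => (hpat a a').symm
    have hs2 : (∀ a a', c' a < y a' ∧ c a < y a') ∨ (∀ a a', y a' < c' a ∧ y a' < c a) := by
      rcases hs1 with h | h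
      · left; exact fun a a' => (h a a').symm
      · right; exact fun a a' => (h a a').symm
    constructor
    · exact (canon hom hTopT hTopc hcT hcT' hyT hcTop hcTop' hpat hs1 ht hu hc hc' hoo hy hocc
        hoccu).1
    · exact (canon hom hTopT hTopc hcT' hcT hyT hcTop' hcTop hpat' hs2 ht' hu hc' hc hoo.symm hy
        hocc' hoccu).1
  have hrk := pr_rank M cell n B O hBO lab hlab _ Finset.univ rfl 0 n (by omega)
    (fun u _ _ _ => Finset.mem_univ _)
  obtain ⟨κ, hfin, α, β, f1, f2, f3, f4⟩ := hrk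
  refine ⟨κ, hfin, fun i y => α i (fun c => y ((cellEquiv hd τ.symm hb).symm c)),
    fun i y => β i (fun c => y ((cellEquiv hd τ.symm hb).symm c)), ?_, ?_, ?_, ?_⟩
  · refine f1.trans ?_
    rw [Finset.card_univ]
    exact Nat.pow_le_pow_left (Nat.pow_le_pow_left hQ 2) _
  · intro i y y' hy hy' hyk
    refine f2 i _ _ fun c hc => ?_
    obtain ⟨s, rfl⟩ := (cellEquiv hd τ.symm hb).surjective c
    rw [Equiv.symm_apply_apply]
    rcases s with ⟨j, x⟩ | r
    · have hj : j = k := by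
        by_contra hjk
        refine hc ⟨j, x, hjk, ?_⟩
        rw [cellEquiv_inl]
      subst hj
      exact congrFun hyk x
    · exact congrFun (hy.trans hy'.symm) r
  · intro i y u hy
    refine f3 i _ _ fun c hc => ?_
    obtain ⟨s, rfl⟩ := (cellEquiv hd τ.symm hb).surjective c
    rw [Equiv.symm_apply_apply]
    rcases s with ⟨j, x⟩ | r
    · have hj : j ≠ k := by
        rintro rfl
        refine hc ⟨x, ?_⟩
        rw [cellEquiv_inl]
      simp only [put, if_neg hj]
    · rfl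
  · intro y hy
    exact f4 _

end hom

/-- **Families described by the signs of linear forms in the last vector of a program.** -/
theorem programs (d : ℕ) (hd : 1 ≤ d) (w p s : ℕ) (hw : 1 ≤ w) (δ : ℝ) (hδ : 0 < δ) :
    ∃ (N₀ : ℕ) (η : ℝ), 0 < η ∧ ∀ (N : ℕ), N₀ ≤ N → ∀ (P : MatProgram ℝ w (Fin d → Fin N)),
      P.ReadAtMost p → ∀ (acc : Fin s → Fin w → ℝ) (R0 : (Fin s → Prop) → Prop)
        (F S : Finset (Finset (Fin d → Fin N))),
      (∀ A, A ∈ F ↔ R0 fun j => 0 < ∑ q, P.state (fun c => decide (c ∈ A)) P.len q * acc j q) →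
      δ * 2 ^ (N ^ d) ≤ (#F : ℝ) → (#(F \ S) : ℝ) ≤ η * 2 ^ (N ^ d) → Good S := by
  classical
  obtain ⟨C, hC⟩ := exists_hom d
  obtain ⟨a, ha⟩ := hC p
  obtain ⟨v, hv⟩ := exists_v ((w ^ 2) ^ Fintype.card ((Fin d → Fin d → Bool) × Fin (p + 1))) s
  obtain ⟨l, b, η, hl0, hb0, hη, hmain⟩ := blocks d hd v δ hδ
  refine ⟨RC.tow C (a * (b * l + 2 * d + 1)), η, hη, ?_⟩
  intro N hN P hP acc R0 F S hF hbig hsmall
  obtain ⟨T, hTN, hTK, hom⟩ := ha N (b * l + 2 * d) P.len P.cell hN
  have hbl : b * l ≤ N := by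
    have := card_le_card hTN
    rw [hTK, card_range] at this
    omega
  have : Nonempty (Fin w) := ⟨⟨0, hw⟩⟩
  obtain ⟨σ, hσ⟩ := rank_of_hom (l := l) hd (by rw [Fintype.card_fin]) P.mat P.cell
    (fun t ht c hc => P.occ_lt' hP ht c hc) T hTN hTK hom
  refine hmain N hbl σ F S ?_ hbig hsmall
  rintro ρ k ⟨u, hu⟩
  choose y hy1 hy2 using hu
  obtain ⟨κ, hfin, α, β, h1, h2, h3, h4⟩ := hσ b hbl le_rfl ρ k
  refine no_pattern h1 hv R0 (fun _ t U => α t (put (y ∅) k U))
    (fun j t Y => ∑ q', ∑ q, P.start q * β t Y q q' * acc j q') u y ?_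
  intro T' i
  have hmem : toSet hd σ hbl (put (y T') k (u i)) ∈ F ↔ i ∈ T' := hy2 T' i
  rw [← hmem, hF]
  have h5 : (fun c => decide (c ∈ toSet hd σ hbl (put (y T') k (u i)))) =
      fun c => (put (y T') k (u i)) ((cellEquiv hd σ hbl).symm c) := by
    funext c
    obtain ⟨s', rfl⟩ := (cellEquiv hd σ hbl).surjective c
    rw [Equiv.symm_apply_apply, Bool.eq_iff_iff, decide_eq_true_iff, mem_toSet]
  have h6 : ∀ j, ∑ q, P.state (fun c => decide (c ∈ toSet hd σ hbl (put (y T') k (u i)))) P.len q *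
      acc j q = ∑ t, α t (put (y ∅) k (u i)) *
        ∑ q', ∑ q, P.start q * β t (y T') q q' * acc j q' := by
    intro j
    rw [h5]
    simp only [P.state_eq]
    rw [h4 _ ((out_put _ _ _).trans (hy1 T'))]
    have e1 : ∀ t, α t (put (y T') k (u i)) = α t (put (y ∅) k (u i)) := fun t =>
      h2 t _ _ ((out_put _ _ _).trans (hy1 T')) ((out_put _ _ _).trans (hy1 ∅))
        ((cont_put _ _ _).trans (cont_put _ _ _).symm)
    have e2 : ∀ t, β t (put (y T') k (u i)) = β t (y T') := fun t => h3 t _ _ (hy1 T')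
    simp only [e1, e2, Matrix.sum_apply, Matrix.smul_apply, smul_eq_mul, mul_sum, sum_mul]
    rw [sum_comm_cycle]
    exact sum_congr rfl fun t _ => sum_congr rfl fun q' _ => sum_congr rfl fun q _ => by ring
  simp only [h6]

end Pool.Agent.J4.H83.PH
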