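import Pool.Agent.J4.H83.PH.Trans

/-!
# Sign patterns, and the examples
-/

set_option autoImplicit false

namespace Pool.Agent.J4.H83.PH

open Finset Pool.Agent.Y613.PJ Pool.Agent.Y613.RA Pool.Agent.R756.WP Pool.Agent.H238R2.LR

/-- the number of sign patterns of `v` vectors -/
lemma sign_patterns {κ : Type} [Fintype κ] {r v : ℕ} (hκ : Fintype.card κ ≤ r)
    (a : Fin v → κ → ℝ) (𝒯 : Finset (Finset (Fin v)))
    (h : ∀ T ∈ 𝒯, ∃ β : κ → ℝ, ∀ i, (0 < ∑ t, a i t * β t ↔ i ∈ T)) : #𝒯 ≤ (v + 1) ^ r := by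
  classical
  have h1 : RowVC (fun (T : Finset (Fin v)) (i : Fin v) => decide (i ∈ T)) 𝒯 univ r := by
    intro S _ hS
    by_contra hlt
    push Not at hlt
    have hdep : ¬ LinearIndependent ℝ (fun i : S => a i.1) := by
      intro hl
      have h2 := hl.fintype_card_le_finrank
      rw [Module.finrank_fintype_fun_eq_card, Fintype.card_coe] at h2
      omega
    rw [Fintype.not_linearIndependent_iff] at hdep
    obtain ⟨g, hg, i₀, hi₀⟩ := hdep
    -- a relation with a positive coefficient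
    obtain ⟨g', hg', i₁, hi₁⟩ : ∃ g' : S → ℝ, ∑ i, g' i • a i.1 = 0 ∧ ∃ i, 0 < g' i := by
      rcases lt_or_gt_of_ne hi₀ with h2 | h2
      · refine ⟨fun i => - g i, ?_, i₀, by simpa using h2⟩
        simp only [neg_smul, sum_neg_distrib, hg, neg_zero]
      · exact ⟨g, hg, i₀, h2⟩
    obtain ⟨T, hT, hTS⟩ := hS ((univ.filter fun i : S => 0 < g' i).map
      (Function.Embedding.subtype _)) (by
        intro i hi
        rw [mem_map] at hi
        obtain ⟨j, -, rfl⟩ := hi
        exact j.2)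
    obtain ⟨β, hβ⟩ := h T hT
    have h3 : ∀ i : S, (0 < ∑ t, a i.1 t * β t ↔ 0 < g' i) := by
      intro i
      rw [hβ]
      have h4 := hTS i.1 i.2
      rw [decide_eq_true_iff, mem_map] at h4
      rw [h4]
      constructor
      · rintro ⟨j, hj, h5⟩
        have : j = i := Subtype.ext h5
        rw [← this]
        exact (mem_filter.1 hj).2
      · intro h5
        exact ⟨i, mem_filter.2 ⟨mem_univ _, h5⟩, rfl⟩
    have h4 : ∑ i : S, g' i * ∑ t, a i.1 t * β t = 0 := by
      have h5 : ∑ t, (∑ i : S, g' i • a i.1) t * β t = 0 := by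
        rw [hg']
        simp
      rw [← h5]
      simp only [mul_sum, Finset.sum_apply, Pi.smul_apply, smul_eq_mul, sum_mul]
      rw [sum_comm]
      exact sum_congr rfl fun t _ => sum_congr rfl fun i _ => by ring
    have h6 : 0 < ∑ i : S, g' i * ∑ t, a i.1 t * β t := by
      refine sum_pos' (fun i _ => ?_) ⟨i₁, mem_univ _, mul_pos hi₁ ((h3 i₁).2 hi₁)⟩
      by_cases h7 : 0 < g' i
      · exact (mul_pos h7 ((h3 i).2 h7)).le
      · have h8 : ¬ 0 < ∑ t, a i.1 t * β t := fun h => h7 ((h3 i).1 h)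
        exact mul_nonneg_of_nonpos_of_nonpos (not_lt.1 h7) (not_lt.1 h8)
    linarith
  have h2 := sauer (fun (T : Finset (Fin v)) (i : Fin v) => decide (i ∈ T)) 𝒯 𝒯 univ univ r
    (subset_univ _) h1 (Subset.refl _) (by
      intro T _ T' _ h3
      ext i
      have := h3 i (mem_univ _)
      rwa [decide_eq_decide] at this)
  rwa [card_univ, Fintype.card_fin] at h2

/-- Boolean combinations of signs of bilinear forms do not shatter many points. -/
lemma no_pattern {X Y κ : Type} [Fintype κ] {r s v : ℕ} (hκ : Fintype.card κ ≤ r)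
    (hv : ((v + 1) ^ r) ^ s < 2 ^ v) (R0 : (Fin s → Prop) → Prop) (α : Fin s → κ → X → ℝ)
    (β : Fin s → κ → Y → ℝ) (x : Fin v → X) (y : Finset (Fin v) → Y) :
    ¬ ∀ T i, (R0 (fun j => 0 < ∑ t, α j t (x i) * β j t (y T)) ↔ i ∈ T) := by
  classical
  intro h
  set pat : Finset (Fin v) → Fin s → Finset (Fin v) := fun T j =>
    univ.filter fun i => 0 < ∑ t, α j t (x i) * β j t (y T) with hpat
  have hinj : Function.Injective pat := by
    intro T T' hTT
    ext i
    rw [← h T i, ← h T' i]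
    have : (fun j => 0 < ∑ t, α j t (x i) * β j t (y T)) =
        fun j => 0 < ∑ t, α j t (x i) * β j t (y T') := by
      funext j
      have h1 := congrFun hTT j
      have h2 : i ∈ pat T j ↔ i ∈ pat T' j := by rw [h1]
      simp only [hpat, mem_filter, mem_univ, true_and] at h2
      exact propext h2
    rw [this]
  have hcard : ∀ j, #(univ.image fun T => pat T j) ≤ (v + 1) ^ r := by
    intro j
    refine sign_patterns hκ (fun i t => α j t (x i)) _ ?_
    intro P hP
    obtain ⟨T, -, rfl⟩ := mem_image.1 hP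
    exact ⟨fun t => β j t (y T), fun i => by simp [hpat]⟩
  have h1 : #((univ : Finset (Finset (Fin v))).image pat) ≤
      #(Fintype.piFinset fun j => univ.image fun T => pat T j) := by
    refine card_le_card fun P hP => ?_
    obtain ⟨T, -, rfl⟩ := mem_image.1 hP
    exact Fintype.mem_piFinset.2 fun j => mem_image.2 ⟨T, mem_univ _, rfl⟩
  rw [card_image_of_injective _ hinj, card_univ, Fintype.card_finset, Fintype.card_fin,
    Fintype.card_piFinset] at h1
  have h2 : ∏ j : Fin s, #(univ.image fun T => pat T j) ≤ ((v + 1) ^ r) ^ s := by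
    calc ∏ j : Fin s, #(univ.image fun T => pat T j) ≤ ∏ _j : Fin s, (v + 1) ^ r :=
          prod_le_prod' fun j _ => hcard j
      _ = _ := by rw [prod_const, card_univ, Fintype.card_fin]
  omega

lemma exists_v (r s : ℕ) : ∃ v : ℕ, ((v + 1) ^ r) ^ s < 2 ^ v := by
  have h1 := tendsto_pow_const_div_const_pow_of_one_lt (r * s) (show (1 : ℝ) < 2 by norm_num)
  have h2 := h1.const_mul ((2 : ℝ) ^ (r * s))
  rw [mul_zero] at h2
  obtain ⟨a, ha1, ha⟩ := ((Filter.eventually_ge_atTop 1).and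
    (h2.eventually (gt_mem_nhds (show (0 : ℝ) < 1 by norm_num)))).exists
  refine ⟨a, ?_⟩
  have ha1' : (1 : ℝ) ≤ a := by exact_mod_cast ha1
  rw [← pow_mul]
  have h3 : ((a + 1 : ℕ) : ℝ) ^ (r * s) < 2 ^ a := by
    have e1 : ((a + 1 : ℕ) : ℝ) ≤ 2 * a := by
      push_cast
      linarith
    calc ((a + 1 : ℕ) : ℝ) ^ (r * s) ≤ (2 * (a : ℝ)) ^ (r * s) :=
          pow_le_pow_left₀ (by positivity) e1 _
      _ = (2 ^ (r * s) * ((a : ℝ) ^ (r * s) / 2 ^ a)) * 2 ^ a := by
          rw [mul_pow]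
          field_simp
      _ < 1 * 2 ^ a := mul_lt_mul_of_pos_right ha (by positivity)
      _ = 2 ^ a := one_mul _
  exact_mod_cast h3

/-! ### Blocks as sets of cells -/

section sets

variable {d N l b : ℕ}

/-- Some contents `x 0, …, x (v - 1)` of the block `B` are shattered by the contents of the other
cells in `D`, for fixed contents `ρ` of the cells outside `D`. -/
def Shattered (F : Finset (Finset (Fin d → Fin N))) (B D : Finset (Fin d → Fin N)) (v : ℕ) : Prop :=
  ∃ (x : Fin v → Finset (Fin d → Fin N)) (ρ : Finset (Fin d → Fin N)), ∀ T : Finset (Fin v),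
    ∃ y : Finset (Fin d → Fin N), y \ D = ρ \ D ∧ ∀ i, ((x i ∩ B) ∪ (y \ B) ∈ F ↔ i ∈ T)

lemma mem_block {hd : 1 ≤ d} {σ : Fin N ≃ Fin N} {hb : b * l ≤ N} {k : Fin b}
    {I : Finset (Fin N)} (hI : ∀ i, i ∈ I ↔ ∃ a : Fin l, coord σ hb k a = i)
    (s : (Fin b × (Fin d → Fin l)) ⊕ Rest σ hb d) :
    cellEquiv hd σ hb s ∈ cube d I ↔ ∃ x, s = Sum.inl (k, x) := by
  rw [cube, Fintype.mem_piFinset]
  constructor
  · intro h
    choose x hx using fun i => (hI _).1 (h i)
    refine ⟨x, ?_⟩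
    apply (cellEquiv hd σ hb).injective
    rw [cellEquiv_inl]
    funext i
    exact (hx i).symm
  · rintro ⟨x, rfl⟩ i
    rw [hI, cellEquiv_inl]
    exact ⟨x i, rfl⟩

lemma toSet_put (hd : 1 ≤ d) (σ : Fin N ≃ Fin N) (hb : b * l ≤ N) (k : Fin b)
    (I : Finset (Fin N)) (hI : ∀ i, i ∈ I ↔ ∃ a : Fin l, coord σ hb k a = i)
    (y y' : Conf b (Fin d → Fin l) (Rest σ hb d)) (u : (Fin d → Fin l) → Bool) :
    toSet hd σ hb (put y k u) = (toSet hd σ hb (put y' k u) ∩ cube d I) ∪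
      (toSet hd σ hb y \ cube d I) := by
  classical
  ext c
  obtain ⟨s, rfl⟩ := (cellEquiv hd σ hb).surjective c
  rw [mem_union, mem_inter, mem_sdiff, mem_toSet, mem_toSet, mem_toSet, mem_block hI]
  rcases s with ⟨j, x⟩ | r
  · by_cases hj : j = k
    · subst hj
      have h1 : ∃ x', (Sum.inl (j, x) : (Fin b × (Fin d → Fin l)) ⊕ Rest σ hb d) =
          Sum.inl (j, x') := ⟨x, rfl⟩
      simp only [put, if_true]
      tauto
    · have h1 : ¬ ∃ x', (Sum.inl (j, x) : (Fin b × (Fin d → Fin l)) ⊕ Rest σ hb d) =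
          Sum.inl (k, x') := by
        rintro ⟨x', h⟩
        have := (Prod.mk.inj (Sum.inl_injective h)).1
        exact hj this
      simp only [put, if_neg hj]
      tauto
  · have h1 : ¬ ∃ x', (Sum.inr r : (Fin b × (Fin d → Fin l)) ⊕ Rest σ hb d) =
        Sum.inl (k, x') := by
      rintro ⟨x', h⟩
      cases h
    simp only [put]
    tauto

/-- **Bounded dimension at disjoint blocks.** -/
theorem bounded_dimension (d : ℕ) (hd : 1 ≤ d) (v : ℕ) (δ : ℝ) (hδ : 0 < δ) :
    ∃ (l b : ℕ) (η : ℝ), 0 < l ∧ 0 < b ∧ 0 < η ∧ ∀ (N : ℕ) (I : Fin b → Finset (Fin N))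
      (F S : Finset (Finset (Fin d → Fin N))), (∀ k, #(I k) = l) →
      (∀ j k, j ≠ k → Disjoint (I j) (I k)) →
      (∀ k, ¬ Shattered F (cube d (I k)) (univ.biUnion fun j => cube d (I j)) v) →
      δ * 2 ^ (N ^ d) ≤ (#F : ℝ) → (#(F \ S) : ℝ) ≤ η * 2 ^ (N ^ d) → Good S := by
  classical
  obtain ⟨l, b, η, hl0, hb0, hη, hmain⟩ := blocks d hd v δ hδ
  refine ⟨l, b, η, hl0, hb0, hη, ?_⟩
  intro N I F S hI hdis hsh hF hFS
  have hbl : b * l ≤ N := by
    have h1 : #(univ.biUnion I) = ∑ k, #(I k) := card_biUnion fun j _ k _ hjk => hdis j k hjk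
    have h2 : #(univ.biUnion I) ≤ N := (card_le_univ _).trans (by simp)
    rw [h1] at h2
    simpa [hI] using h2
  obtain ⟨σ, hσ⟩ := exists_numbering hl0 hbl I hI hdis
  have hσ' : ∀ (k : Fin b) (i : Fin N), i ∈ I k ↔ ∃ a : Fin l, coord σ hbl k a = i :=
    fun k i => hσ b hbl le_rfl k i
  refine hmain N hbl σ F S ?_ hF hFS
  rintro ρ k ⟨u, hu⟩
  apply hsh k
  choose y hy1 hy2 using hu
  refine ⟨fun i => toSet hd σ hbl (put (y ∅) k (u i)), toSet hd σ hbl (y ∅), fun T =>
    ⟨toSet hd σ hbl (y T), ?_, fun i => ?_⟩⟩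
  · ext c
    obtain ⟨s, rfl⟩ := (cellEquiv hd σ hbl).surjective c
    rw [mem_sdiff, mem_sdiff, mem_toSet, mem_toSet]
    rcases s with ⟨j, x⟩ | r
    · have h1 : cellEquiv hd σ hbl (Sum.inl (j, x)) ∈ univ.biUnion fun j => cube d (I j) :=
        mem_biUnion.2 ⟨j, mem_univ _, (mem_block (hσ' j) _).2 ⟨x, rfl⟩⟩
      tauto
    · have h1 : y T (Sum.inr r) = y ∅ (Sum.inr r) := by
        have := (hy1 T).trans (hy1 ∅).symm
        exact congrFun this r
      rw [h1]
  · rw [← toSet_put hd σ hbl k (I k) (hσ' k) (y T) (y ∅) (u i)]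
    exact hy2 T i

/-- signs of functions of small flattening rank do not shatter -/
lemma not_shattered_signs {r s v : ℕ} (hv : ((v + 1) ^ r) ^ s < 2 ^ v)
    (R0 : (Fin s → Prop) → Prop) (f : Fin s → Finset (Fin d → Fin N) → ℝ)
    {F : Finset (Finset (Fin d → Fin N))} (hF : ∀ A, A ∈ F ↔ R0 fun j => 0 < f j A)
    (B D : Finset (Fin d → Fin N)) (hf : ∀ j, FlatRank r B (f j)) : ¬ Shattered F B D v := by
  classical
  rintro ⟨x, ρ, h⟩
  choose y hy1 hy2 using h
  choose a β hab using hf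
  refine no_pattern (κ := Fin r) (by simp) hv R0 (fun j t X => a j t (X ∩ B))
    (fun j t Y => β j t (Y \ B)) x y ?_
  intro T i
  rw [← hy2 T i, hF]
  have h1 : ((x i ∩ B) ∪ (y T \ B)) ∩ B = x i ∩ B := by
    ext c
    simp only [mem_inter, mem_union, mem_sdiff]
    tauto
  have h2 : ((x i ∩ B) ∪ (y T \ B)) \ B = y T \ B := by
    ext c
    simp only [mem_inter, mem_union, mem_sdiff]
    tauto
  have h3 : ∀ j, f j ((x i ∩ B) ∪ (y T \ B)) = ∑ t, a j t (x i ∩ B) * β j t (y T \ B) := by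
    intro j
    rw [hab, h1, h2]
  simp only [h3]

/-- target sets of bounded dimension in a group -/
lemma not_shattered_group {G : Type} [AddCommGroup G] {v : ℕ} (W : Set G)
    (hW : ∀ z : Fin v → G, ∃ T : Finset (Fin v), ∀ h : G, ¬ ∀ i, (z i + h ∈ W ↔ i ∈ T))
    (g : (Fin d → Fin N) → G) {F : Finset (Finset (Fin d → Fin N))}
    (hF : ∀ A, A ∈ F ↔ ∑ c ∈ A, g c ∈ W) (B D : Finset (Fin d → Fin N)) :
    ¬ Shattered F B D v := by
  classical
  rintro ⟨x, ρ, h⟩
  obtain ⟨T, hT⟩ := hW fun i => ∑ c ∈ x i ∩ B, g c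
  obtain ⟨y, -, hy⟩ := h T
  refine hT (∑ c ∈ y \ B, g c) fun i => ?_
  rw [← hy i, hF, sum_union]
  rw [Finset.disjoint_left]
  intro c hc hc'
  exact (mem_sdiff.1 hc').2 (mem_inter.1 hc).2

/-- disjoint blocks exist -/
lemma exists_blocks {l b : ℕ} (h : b * l ≤ N) : ∃ I : Fin b → Finset (Fin N),
    (∀ k, #(I k) = l) ∧ ∀ j k, j ≠ k → Disjoint (I j) (I k) := by
  classical
  refine ⟨fun k => univ.image fun a : Fin l => coord (Equiv.refl (Fin N)) h k a, ?_, ?_⟩
  · intro k
    rw [card_image_of_injective, card_univ, Fintype.card_fin]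
    intro a a' haa
    exact (coord_inj _ h haa).2
  · intro j k hjk
    rw [Finset.disjoint_left]
    intro i hi hi'
    obtain ⟨a, -, rfl⟩ := mem_image.1 hi
    obtain ⟨a', -, h2⟩ := mem_image.1 hi'
    exact hjk (coord_inj _ h h2).1.symm

end sets

end Pool.Agent.J4.H83.PH
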