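import Pool.Agent.J4.H83.PH.Core

/-!
# From configurations to sets of cells
-/

set_option autoImplicit false

namespace Pool.Agent.J4.H83.PH

open Finset Pool.Agent.Y613.PJ Pool.Agent.H238R2.LR

variable {d N l b : ℕ}

open Classical in
/-- the set of cells of a configuration -/
noncomputable def toSet (hd : 1 ≤ d) (σ : Fin N ≃ Fin N) (hb : b * l ≤ N)
    (z : Conf b (Fin d → Fin l) (Rest σ hb d)) : Finset (Fin d → Fin N) :=
  univ.filter fun c => z ((cellEquiv hd σ hb).symm c) = true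

lemma mem_toSet {hd : 1 ≤ d} {σ : Fin N ≃ Fin N} {hb : b * l ≤ N}
    {z : Conf b (Fin d → Fin l) (Rest σ hb d)} (s : (Fin b × (Fin d → Fin l)) ⊕ Rest σ hb d) :
    cellEquiv hd σ hb s ∈ toSet hd σ hb z ↔ z s = true := by
  simp [toSet]

lemma toSet_bij (hd : 1 ≤ d) (σ : Fin N ≃ Fin N) (hb : b * l ≤ N) :
    Function.Bijective (toSet (b := b) (l := l) hd σ hb) := by
  classical
  constructor
  · intro z z' h
    funext s
    have h1 := mem_toSet (hd := hd) (z := z) s
    rw [h, mem_toSet] at h1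
    rw [Bool.eq_iff_iff]
    exact h1.symm
  · intro A
    refine ⟨fun s => decide (cellEquiv hd σ hb s ∈ A), ?_⟩
    ext c
    obtain ⟨s, rfl⟩ := (cellEquiv hd σ hb).surjective c
    rw [mem_toSet, decide_eq_true_iff]

lemma card_cells (hd : 1 ≤ d) (σ : Fin N ≃ Fin N) (hb : b * l ≤ N) [Fintype (Rest σ hb d)] :
    (2 : ℝ) ^ Fintype.card (Rest σ hb d) * (2 ^ Fintype.card (Fin d → Fin l)) ^ b =
      2 ^ (N ^ d) := by
  classical
  have h1 := Fintype.card_congr (cellEquiv hd σ hb)
  rw [Fintype.card_sum, Fintype.card_prod, Fintype.card_fin] at h1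
  have h2 : Fintype.card (Fin d → Fin N) = N ^ d := by
    rw [Fintype.card_fun, Fintype.card_fin, Fintype.card_fin]
  rw [h2] at h1
  have h3 : Fintype.card (Rest σ hb d) + Fintype.card (Fin d → Fin l) * b = N ^ d := by
    rw [← h1, add_comm, mul_comm]
  rw [← pow_mul, ← pow_add, h3]

lemma card_pre (hd : 1 ≤ d) (σ : Fin N ≃ Fin N) (hb : b * l ≤ N) [Fintype (Rest σ hb d)]
    [DecidableEq (Rest σ hb d)] (F : Finset (Finset (Fin d → Fin N))) :
    #(univ.filter fun z : Conf b (Fin d → Fin l) (Rest σ hb d) => toSet hd σ hb z ∈ F) = #F := by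
  classical
  refine card_bij (fun z _ => toSet hd σ hb z) (fun z hz => (mem_filter.1 hz).2)
    (fun z _ z' _ h => (toSet_bij hd σ hb).1 h) ?_
  intro A hA
  obtain ⟨z, rfl⟩ := (toSet_bij (b := b) (l := l) hd σ hb).2 A
  exact ⟨z, mem_filter.2 ⟨mem_univ _, hA⟩, rfl⟩

/-- a pair of contents gives a pair of sets -/
lemma good_of_pair (hd : 1 ≤ d) (σ : Fin N ≃ Fin N) (hb : b * l ≤ N)
    (y : Conf b (Fin d → Fin l) (Rest σ hb d)) (k : Fin b) (a : Set (Fin d → Fin l))
    (γ : Set (Fin l)) (hγ : γ.Nonempty) (hdisj : Disjoint a (cubeSet d γ))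
    (u u' : (Fin d → Fin l) → Bool) (hu : ∀ x, u x = true ↔ x ∈ a)
    (hu' : ∀ x, u' x = true ↔ x ∈ a ∪ cubeSet d γ)
    (S : Finset (Finset (Fin d → Fin N))) (h1 : toSet hd σ hb (put y k u) ∈ S)
    (h2 : toSet hd σ hb (put y k u') ∈ S) : Good S := by
  classical
  set Γ : Finset (Fin N) := (univ.filter fun i : Fin l => i ∈ γ).image (coord σ hb k) with hΓ
  have hmemΓ : ∀ x : Fin d → Fin N, x ∈ cube d Γ ↔ ∃ y ∈ cubeSet d γ, emb σ hb (k, y) = x := by
    intro x
    unfold cube
    rw [Fintype.mem_piFinset]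
    constructor
    · intro h
      choose y hy using fun i => mem_image.1 (h i)
      refine ⟨y, fun i => (mem_filter.1 (hy i).1).2, ?_⟩
      funext i
      exact (hy i).2
    · rintro ⟨y, hy, rfl⟩ i
      exact mem_image.2 ⟨y i, mem_filter.2 ⟨mem_univ _, hy i⟩, rfl⟩
  refine ⟨_, h1, Γ, ?_, ?_, ?_⟩
  · obtain ⟨i, hi⟩ := hγ
    exact ⟨coord σ hb k i, mem_image.2 ⟨i, mem_filter.2 ⟨mem_univ _, hi⟩, rfl⟩⟩
  · rw [Finset.disjoint_left]
    intro x hx hx'
    obtain ⟨w, hw, rfl⟩ := (hmemΓ x).1 hx'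
    rw [← cellEquiv_inl hd, mem_toSet] at hx
    simp only [put, if_true] at hx
    exact (Set.disjoint_left.1 hdisj) ((hu w).1 hx) hw
  · have h3 : toSet hd σ hb (put y k u) ∪ cube d Γ = toSet hd σ hb (put y k u') := by
      ext c
      obtain ⟨s, rfl⟩ := (cellEquiv hd σ hb).surjective c
      rw [mem_union, mem_toSet, mem_toSet, hmemΓ]
      rcases s with ⟨j, x⟩ | r
      · by_cases hj : j = k
        · subst hj
          simp only [put, if_true, hu, hu', Set.mem_union]
          refine or_congr_right ?_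
          constructor
          · rintro ⟨w, hw, h⟩
            rw [cellEquiv_inl] at h
            have := emb_injective hd σ hb h
            rw [Prod.mk.injEq] at this
            rw [← this.2]
            exact hw
          · intro h
            exact ⟨x, h, (cellEquiv_inl hd σ hb _ _).symm⟩
        · simp only [put, if_neg hj]
          constructor
          · rintro (h | ⟨w, hw, h⟩)
            · exact h
            · rw [cellEquiv_inl] at h
              have := emb_injective hd σ hb h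
              rw [Prod.mk.injEq] at this
              exact absurd this.1.symm hj
          · exact Or.inl
      · simp only [put]
        constructor
        · rintro (h | ⟨w, hw, h⟩)
          · exact h
          · exfalso
            rw [← cellEquiv_inl hd] at h
            have := (cellEquiv hd σ hb).injective h
            simp at this
        · exact Or.inl
    rw [h3]
    exact h2

/-- **The density theorem for bounded dimension**, for numbered blocks. -/
theorem blocks (d : ℕ) (hd : 1 ≤ d) (v : ℕ) (δ : ℝ) (hδ : 0 < δ) : ∃ (l b : ℕ) (η : ℝ),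
    0 < l ∧ 0 < b ∧ 0 < η ∧ ∀ (N : ℕ) (hb : b * l ≤ N) (σ : Fin N ≃ Fin N)
      (F S : Finset (Finset (Fin d → Fin N))),
      (∀ (ρ : Rest σ hb d → Bool) (k : Fin b),
        ¬ Shat (fun z : Conf b (Fin d → Fin l) (Rest σ hb d) => toSet hd σ hb z ∈ F) v ρ k) →
      δ * 2 ^ (N ^ d) ≤ (#F : ℝ) → (#(F \ S) : ℝ) ≤ η * 2 ^ (N ^ d) → Good S := by
  classical
  obtain ⟨M, hM, hcore⟩ := core v δ hδ
  obtain ⟨l, hl⟩ := exists_pair d hd (Fin M)
  have hl0 : 0 < l := by
    obtain ⟨-, γ, ⟨x, -⟩, -⟩ := hl fun _ => ⟨0, hM⟩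
    exact lt_of_le_of_lt (Nat.zero_le _) x.2
  obtain ⟨b, η, hb0, hη, hmain⟩ := hcore (Fin d → Fin l)
  refine ⟨l, b, η, hl0, hb0, hη, ?_⟩
  intro N hb σ F S hsh hF hFS
  set Q : Set (((Fin d → Fin l) → Bool) × ((Fin d → Fin l) → Bool)) :=
    {p | ∃ (a : Set (Fin d → Fin l)) (γ : Set (Fin l)), γ.Nonempty ∧ Disjoint a (cubeSet d γ) ∧
      (∀ x, p.1 x = true ↔ x ∈ a) ∧ ∀ x, p.2 x = true ↔ x ∈ a ∪ cubeSet d γ} with hQ
  have hQ' : ∀ χ : ((Fin d → Fin l) → Bool) → Fin M, ∃ p ∈ Q, χ p.1 = χ p.2 := by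
    intro χ
    let ind : Set (Fin d → Fin l) → (Fin d → Fin l) → Bool := fun s x => decide (x ∈ s)
    have hind : ∀ s x, ind s x = true ↔ x ∈ s := fun s x => by simp only [ind, decide_eq_true_eq]
    obtain ⟨a, γ, h1, h2, h3⟩ := hl fun s => χ (ind s)
    exact ⟨(ind a, ind (a ∪ cubeSet d γ)), ⟨a, γ, h1, h2, hind a, hind _⟩, h3⟩
  set F' : Finset (Conf b (Fin d → Fin l) (Rest σ hb d)) :=
    univ.filter fun z => toSet hd σ hb z ∈ F with hF'
  set G' : Finset (Conf b (Fin d → Fin l) (Rest σ hb d)) :=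
    univ.filter fun z => toSet hd σ hb z ∈ S with hG'
  have hdiff : F' \ G' = univ.filter fun z => toSet hd σ hb z ∈ F \ S := by
    ext z
    simp only [hF', hG', mem_sdiff, mem_filter, mem_univ, true_and]
  obtain ⟨y, k, p, ⟨a, γ, h1, h2, h3, h4⟩, h5, h6⟩ := hmain (Rest σ hb d) Q hQ' F' G' (by
      intro ρ k hs
      apply hsh ρ k
      obtain ⟨u, hu⟩ := hs
      refine ⟨u, fun T => ?_⟩
      obtain ⟨y, hy1, hy2⟩ := hu T
      refine ⟨y, hy1, fun i => ?_⟩
      have := hy2 i
      simp only [hF', mem_filter, mem_univ, true_and] at this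
      exact this)
    (by
      rw [card_cells hd σ hb, hF', card_pre]
      exact hF)
    (by
      rw [card_cells hd σ hb, hdiff, card_pre]
      exact hFS)
  exact good_of_pair hd σ hb y k a γ h1 h2 p.1 p.2 h3 h4 S (mem_filter.1 h5).2 (mem_filter.1 h6).2

end Pool.Agent.J4.H83.PH
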